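import Pool.Agent.H69.LQ.Lib
import Pool.Agent.H69.LQ.Targets1

/-!
# The divergence and the curl (row DC of the board `lq1_modules`)
-/

set_option autoImplicit false

open MeasureTheory Metric Set
open scoped ENNReal ContDiff
open Pool.Agent.H85.LK (E adm lam Ann)
open Pool.Agent.H69.LQ

namespace Pool.Agent.H15.LQ1

variable {N : ℕ}

theorem pd_contDiff {f : E N → ℝ} (hf : ContDiff ℝ (⊤ : ℕ∞) f) (j : Fin N) :
    ContDiff ℝ (⊤ : ℕ∞) (pd j f) := by
  have h1 : ContDiff ℝ (⊤ : ℕ∞) (fderiv ℝ f) := hf.fderiv_right (by simp)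
  exact h1.clm_apply contDiff_const

theorem pd_support {f : E N → ℝ} (hf : HasCompactSupport f) (j : Fin N) :
    HasCompactSupport (pd j f) := hf.fderiv_apply (𝕜 := ℝ) _

theorem pd_symm {g : E N → ℝ} (hg : ContDiff ℝ (⊤ : ℕ∞) g) (i j : Fin N) (x : E N) :
    pd i (pd j g) x = pd j (pd i g) x := by
  have h1 : ContDiff ℝ (⊤ : ℕ∞) (fderiv ℝ g) := hg.fderiv_right (by simp)
  have h2 : ∀ v w : E N, fderiv ℝ (fun x => fderiv ℝ g x v) x w =
      fderiv ℝ (fderiv ℝ g) x w v := by
    intro v w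
    have hd : DifferentiableAt ℝ (fderiv ℝ g) x := (h1.differentiable (by simp)).differentiableAt
    rw [fderiv_clm_apply hd (differentiableAt_const v)]
    simp
  have h3 : IsSymmSndFDerivAt ℝ g x := hg.contDiffAt.isSymmSndFDerivAt (by
    simp only [minSmoothness_of_isRCLikeNormedField]
    exact WithTop.coe_le_coe.2 le_top)
  show fderiv ℝ (fun x => fderiv ℝ g x _) x _ = fderiv ℝ (fun x => fderiv ℝ g x _) x _
  rw [h2, h2]
  exact h3.eq _ _

theorem key {f g : E N → ℝ} (hf : ContDiff ℝ (⊤ : ℕ∞) f) (hg : ContDiff ℝ (⊤ : ℕ∞) g)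
    (hc : HasCompactSupport g) (i j : Fin N) :
    ∫ x, pd i f x * pd j g x = ∫ x, pd j f x * pd i g x := by
  have hb : ∀ i j : Fin N, ∫ x, pd j g x * pd i f x = -∫ x, pd i (pd j g) x * f x := by
    intro i j
    have hgj := pd_contDiff hg j
    have hsj := pd_support hc j
    refine integral_mul_fderiv_eq_neg_fderiv_mul_of_integrable ?_ ?_ ?_ ?_ ?_
    · exact ((pd_contDiff hgj i).continuous.mul hf.continuous).integrable_of_hasCompactSupport
        ((pd_support hsj i).mul_right)
    · exact (hgj.continuous.mul (pd_contDiff hf i).continuous).integrable_of_hasCompactSupport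
        hsj.mul_right
    · exact (hgj.continuous.mul hf.continuous).integrable_of_hasCompactSupport hsj.mul_right
    · exact fun x _ => (hgj.differentiable (by simp)).differentiableAt
    · exact fun x _ => (hf.differentiable (by simp)).differentiableAt
  have h1 := hb i j
  have h2 := hb j i
  have h3 : ∫ x, pd i (pd j g) x * f x = ∫ x, pd j (pd i g) x * f x :=
    integral_congr_ae (Filter.Eventually.of_forall fun x => by
      show pd i (pd j g) x * f x = pd j (pd i g) x * f x
      rw [pd_symm hg])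
  simp only [mul_comm] at h1 h2 h3 ⊢
  rw [h1, h2, h3]

theorem pf_DC : T_DC := by
  intro N w ξ hw hξ
  have hi : ∀ i j k l, Integrable (fun x => pd i (w j) x * pd k (ξ l) x) := fun i j k l =>
    ((pd_contDiff (hw j) i).continuous.mul
      (pd_contDiff (hξ l).1 k).continuous).integrable_of_hasCompactSupport
      (pd_support (hξ l).2 k).mul_left
  have h1 : ∀ i, ∫ x, gd (w i) (ξ i) x = ∑ j, ∫ x, pd j (w i) x * pd j (ξ i) x := fun i => by
    simp only [gd]
    exact integral_finsetSum _ fun j _ => hi j i j i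
  have h2 : ∫ x, dv w x * dv ξ x = ∑ i, ∑ j, ∫ x, pd i (w i) x * pd j (ξ j) x := by
    simp only [dv, Finset.sum_mul_sum]
    rw [integral_finsetSum _ fun i _ => integrable_finsetSum _ fun j _ => hi i i j j]
    exact Finset.sum_congr rfl fun i _ => integral_finsetSum _ fun j _ => hi i i j j
  have h3 : ∀ i j, ∫ x, cu w i j x * cu ξ i j x =
      (∫ x, pd i (w j) x * pd i (ξ j) x) - (∫ x, pd i (w j) x * pd j (ξ i) x) -
        (∫ x, pd j (w i) x * pd i (ξ j) x) + ∫ x, pd j (w i) x * pd j (ξ i) x := by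
    intro i j
    have e : (fun x => cu w i j x * cu ξ i j x) = fun x =>
        pd i (w j) x * pd i (ξ j) x - pd i (w j) x * pd j (ξ i) x -
          pd j (w i) x * pd i (ξ j) x + pd j (w i) x * pd j (ξ i) x := by
      funext x
      simp only [cu]
      ring
    rw [e, integral_add (f := fun x => pd i (w j) x * pd i (ξ j) x -
      pd i (w j) x * pd j (ξ i) x - pd j (w i) x * pd i (ξ j) x)
      (((hi i j i j).sub (hi i j j i)).sub (hi j i i j)) (hi j i j i),
      integral_sub (f := fun x => pd i (w j) x * pd i (ξ j) x - pd i (w j) x * pd j (ξ i) x)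
      ((hi i j i j).sub (hi i j j i)) (hi j i i j), integral_sub (hi i j i j) (hi i j j i)]
  have h4 : ∀ i j, ∫ x, pd i (w j) x * pd j (ξ i) x = ∫ x, pd j (w j) x * pd i (ξ i) x :=
    fun i j => key (hw j) (hξ i).1 (hξ i).2 i j
  have h5 : ∑ i, ∑ j, ∫ x, cu w i j x * cu ξ i j x =
      2 * (∑ i, ∑ j, ∫ x, pd j (w i) x * pd j (ξ i) x) -
        2 * (∑ i, ∑ j, ∫ x, pd i (w i) x * pd j (ξ j) x) := by
    simp only [h3, h4, Finset.sum_add_distrib, Finset.sum_sub_distrib]
    have e1 : ∑ i, ∑ j, ∫ x, pd i (w j) x * pd i (ξ j) x =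
        ∑ i, ∑ j, ∫ x, pd j (w i) x * pd j (ξ i) x := Finset.sum_comm
    have e2 : ∑ i, ∑ j, ∫ x, pd j (w j) x * pd i (ξ i) x =
        ∑ i, ∑ j, ∫ x, pd i (w i) x * pd j (ξ j) x := Finset.sum_comm
    have e3 : ∑ i, ∑ j, ∫ x, pd j (w i) x * pd i (ξ j) x =
        ∑ i, ∑ j, ∫ x, pd i (w i) x * pd j (ξ j) x := by
      refine Finset.sum_congr rfl fun i _ => Finset.sum_congr rfl fun j _ => ?_
      exact h4 j i
    rw [e1, e2, e3]
    ring
  rw [h5, h2]
  simp only [h1]
  ring

end Pool.Agent.H15.LQ1
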